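import Mathlib

set_option autoImplicit false

namespace Pool.Agent.Lib.MP_0fa330_lc

/-- Cells of the grid. -/
abbrev Cell : Type := ℤ × ℤ

/-- Raw colours: the starter, ladder colours, neutral colours and completing colours. -/
inductive Col : Type
  | a : Col
  | ell (d e : Cell) : Col
  | nn (β : Bool) (u : Cell) : Col
  | xx (β : Bool) (u : Cell) : Col

/-- The vector from the starter to the forced reply. -/
def vw : Cell := (101, 0)

/-- The vector from the starter to the first ladder cell. -/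
def vt : Cell := (0, 101)

/-- Short nonzero vectors. -/
def InBox (u : Cell) : Prop :=
  (u.1 ≠ 0 ∨ u.2 ≠ 0) ∧ -24 ≤ u.1 ∧ u.1 ≤ 24 ∧ -24 ≤ u.2 ∧ u.2 ≤ 24

/-- Pointer vectors. -/
def InP (u : Cell) : Prop :=
  InBox u ∨ (u.1 = 101 ∧ u.2 = 0) ∨ (u.1 = -101 ∧ u.2 = 0) ∨ (u.1 = 0 ∧ u.2 = 101) ∨
    (u.1 = 0 ∧ u.2 = -101)

/-- The colours of the alphabet. -/
def Col.valid : Col → Prop
  | Col.a => True
  | Col.ell d e => (InBox d ∨ (d.1 = 0 ∧ d.2 = 101)) ∧ InBox e ∧ (d.1 + e.1 ≠ 0 ∨ d.2 + e.2 ≠ 0)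
  | Col.nn _ u => InP u
  | Col.xx _ u => InP u

/-- The pointer of a colour. -/
def Col.ptr : Col → Cell
  | Col.a => vw
  | Col.ell d _ => -d
  | Col.nn _ u => u
  | Col.xx _ u => -u

/-- The completing colour of a colour. -/
def Col.comp : Col → Col
  | Col.a => Col.xx false vw
  | Col.ell d _ => Col.xx false (-d)
  | Col.nn β u => Col.xx β u
  | Col.xx _ u => Col.xx false (-u)

/-- The colour with which a colour is capped. -/
def Col.cap : Col → Col
  | Col.a => Col.nn false (-vw)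
  | Col.ell d _ => Col.nn false d
  | Col.nn _ u => Col.nn false (-u)
  | Col.xx β u => Col.nn (!β) u

/-- The approach vector of a colour. -/
def Col.qv (z : Col) : Cell := if z.ptr.2 = 0 then (0, 1) else (1, 0)

/-- The colour of the far moves of the second player. -/
def bcol : Col := Col.nn false vw

/-- Positions with raw colours. -/
abbrev Pos : Type := Cell → Option Col

/-- End of a chain of length two. -/
def Link (P : Pos) (x : Cell) : Prop :=
  ∃ d e, P x = some (Col.ell d e) ∧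
    ((∃ d' e', P (x - d) = some (Col.ell d' e')) ∨ (d = vt ∧ P (x - d) = some Col.a))

/-- End of a chain of length three. -/
def Link3 (P : Pos) (x : Cell) : Prop := ∃ d e, P x = some (Col.ell d e) ∧ Link P (x - d)

/-- Starter with a reply that points back. -/
def CapA (P : Pos) (j : Cell) : Prop :=
  P j = some Col.a ∧ ∃ c, P (j + vw) = some c ∧ c.ptr = -vw

/-- Reply pointing back to a starter. -/
def CapC (P : Pos) (j : Cell) : Prop :=
  (∃ c, P j = some c ∧ c.ptr = -vw) ∧ P (j - vw) = some Col.a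

/-- First ladder cell after a starter. -/
def CapS (P : Pos) (j : Cell) : Prop :=
  (∃ e, P j = some (Col.ell vt e)) ∧ P (j - vt) = some Col.a

/-- Cells of a source. -/
def Cap (P : Pos) (j : Cell) : Prop := CapA P j ∨ CapC P j ∨ CapS P j

/-- A colour `z` at `k` that points wrongly to an occupied cell. -/
def Mis (P : Pos) (k : Cell) (z : Col) : Prop :=
  (z = Col.a ∧ ∃ c, P (k + vw) = some c ∧ c.ptr ≠ -vw) ∨
  (CapA P (k + z.ptr) ∧ z.ptr ≠ -vw ∧ ∀ e, z ≠ Col.ell vt e) ∨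
  (CapC P (k + z.ptr) ∧ z.ptr ≠ vw) ∨
  (CapS P (k + z.ptr) ∧ ∀ d e, z ≠ Col.ell d e)

/-- The demand cell of the target carries the completing colour. -/
def Dem (P : Pos) (k : Cell) (z : Col) : Prop :=
  P (k + z.ptr) = some z.comp ∨ (Mis P k z ∧ P (k - z.ptr) = some (Col.xx false (-z.ptr)))

/-- A ladder has reached the approach cell of the target. -/
def App (P : Pos) (k : Cell) (z : Col) : Prop :=
  Link3 P (k + z.qv) ∨ (Cap P (k + z.qv) ∧ Link3 P (k - z.qv))

/-- A forbidden configuration anchored at `k`. -/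
def BadAt (P : Pos) (k : Cell) : Prop :=
  (P k = some Col.a ∧ P (k + vw) = some (Col.xx false vw)) ∨
  (∃ d e, P k = some (Col.ell d e) ∧ Link P (k - d) ∧ P (k + e) = some (Col.xx false e)) ∨
  (∃ z, P k = some z ∧ Dem P k z ∧ App P k z)

/-- A forbidden configuration somewhere. -/
def Bad (P : Pos) : Prop := ∃ k, BadAt P k

/-- All colours are in the alphabet. -/
def Valid (P : Pos) : Prop := ∀ x c, P x = some c → c.valid

/-- `P'` extends `P`. -/
def Ext (P P' : Pos) : Prop := ∀ x c, P x = some c → P' x = some c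

theorem Col.valid.ptr {c : Col} (h : c.valid) : InP c.ptr := by
  cases c with
  | a => simp [Col.ptr, InP, vw]
  | ell d e =>
    simp only [Col.valid, InBox] at h
    simp only [Col.ptr, InP, InBox, Prod.fst_neg, Prod.snd_neg]
    omega
  | nn β u => exact h
  | xx β u =>
    simp only [Col.valid, InP, InBox] at h
    simp only [Col.ptr, InP, InBox, Prod.fst_neg, Prod.snd_neg]
    omega

theorem InP.neg {u : Cell} (h : InP u) : InP (-u) := by
  simp only [InP, InBox, Prod.fst_neg, Prod.snd_neg] at h ⊢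
  omega

theorem Col.comp_eq (c : Col) : ∃ β, c.comp = Col.xx β c.ptr := by
  cases c <;> exact ⟨_, rfl⟩

theorem Col.cap_eq (c : Col) : ∃ β, c.cap = Col.nn β (-c.ptr) ∧ c ≠ Col.xx β (-c.ptr) := by
  cases c with
  | a => exact ⟨false, rfl, by simp⟩
  | ell d e => exact ⟨false, by simp [Col.cap, Col.ptr], by simp⟩
  | nn β u => exact ⟨false, rfl, by simp⟩
  | xx β u => exact ⟨!β, by simp [Col.cap, Col.ptr], by simp⟩

theorem Col.qv_cases (c : Col) :
    (c.ptr.2 = 0 ∧ c.qv = (0, 1)) ∨ (c.ptr.2 ≠ 0 ∧ c.qv = (1, 0)) := by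
  unfold Col.qv
  split_ifs with h
  · exact Or.inl ⟨h, rfl⟩
  · exact Or.inr ⟨h, rfl⟩

theorem bcol_qv : bcol.qv = (0, 1) := by simp [Col.qv, bcol, Col.ptr, vw]

/-! ### Monotonicity -/

theorem Ext.refl (P : Pos) : Ext P P := fun _ _ h => h

theorem Ext.trans {P P' P'' : Pos} (h : Ext P P') (h' : Ext P' P'') : Ext P P'' :=
  fun x c hx => h' x c (h x c hx)

theorem Ext.update {P : Pos} {x : Cell} (hx : P x = none) (c : Col) :
    Ext P (Function.update P x (some c)) := by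
  intro y c' hy
  have : y ≠ x := by
    rintro rfl
    rw [hx] at hy
    cases hy
  rw [Function.update_of_ne this, hy]

theorem Link.mono {P P' : Pos} (h : Ext P P') {x : Cell} : Link P x → Link P' x := by
  rintro ⟨d, e, h1, ⟨d', e', h2⟩ | ⟨h2, h3⟩⟩
  · exact ⟨d, e, h _ _ h1, Or.inl ⟨d', e', h _ _ h2⟩⟩
  · exact ⟨d, e, h _ _ h1, Or.inr ⟨h2, h _ _ h3⟩⟩

theorem Link3.mono {P P' : Pos} (h : Ext P P') {x : Cell} : Link3 P x → Link3 P' x := by
  rintro ⟨d, e, h1, h2⟩
  exact ⟨d, e, h _ _ h1, h2.mono h⟩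

theorem CapA.mono {P P' : Pos} (h : Ext P P') {x : Cell} : CapA P x → CapA P' x := by
  rintro ⟨h1, c, h2, h3⟩
  exact ⟨h _ _ h1, c, h _ _ h2, h3⟩

theorem CapC.mono {P P' : Pos} (h : Ext P P') {x : Cell} : CapC P x → CapC P' x := by
  rintro ⟨⟨c, h1, h2⟩, h3⟩
  exact ⟨⟨c, h _ _ h1, h2⟩, h _ _ h3⟩

theorem CapS.mono {P P' : Pos} (h : Ext P P') {x : Cell} : CapS P x → CapS P' x := by
  rintro ⟨⟨c, h1⟩, h3⟩
  exact ⟨⟨c, h _ _ h1⟩, h _ _ h3⟩

theorem Cap.mono {P P' : Pos} (h : Ext P P') {x : Cell} : Cap P x → Cap P' x :=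
  Or.imp (CapA.mono h) (Or.imp (CapC.mono h) (CapS.mono h))

theorem Mis.mono {P P' : Pos} (h : Ext P P') {x : Cell} {z : Col} : Mis P x z → Mis P' x z := by
  rintro (⟨h1, c, h2, h3⟩ | ⟨h1, h2⟩ | ⟨h1, h2⟩ | ⟨h1, h2⟩)
  · exact Or.inl ⟨h1, c, h _ _ h2, h3⟩
  · exact Or.inr (Or.inl ⟨h1.mono h, h2⟩)
  · exact Or.inr (Or.inr (Or.inl ⟨h1.mono h, h2⟩))
  · exact Or.inr (Or.inr (Or.inr ⟨h1.mono h, h2⟩))

theorem Dem.mono {P P' : Pos} (h : Ext P P') {x : Cell} {z : Col} : Dem P x z → Dem P' x z :=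
  Or.imp (h _ _) (And.imp (Mis.mono h) (h _ _))

theorem App.mono {P P' : Pos} (h : Ext P P') {x : Cell} {z : Col} : App P x z → App P' x z :=
  Or.imp (Link3.mono h) (And.imp (Cap.mono h) (Link3.mono h))

theorem Bad.mono {P P' : Pos} (h : Ext P P') : Bad P → Bad P' := by
  rintro ⟨k, ⟨h1, h2⟩ | ⟨d, e, h1, h2, h3⟩ | ⟨z, h1, h2, h3⟩⟩
  · exact ⟨k, Or.inl ⟨h _ _ h1, h _ _ h2⟩⟩
  · exact ⟨k, Or.inr (Or.inl ⟨d, e, h _ _ h1, h2.mono h, h _ _ h3⟩)⟩
  · exact ⟨k, Or.inr (Or.inr ⟨z, h _ _ h1, h2.mono h, h3.mono h⟩)⟩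

theorem Link3.link {P : Pos} {x : Cell} : Link3 P x → Link P x := by
  rintro ⟨d, e, h1, d', e', h2, -⟩
  exact ⟨d, e, h1, Or.inl ⟨d', e', h2⟩⟩

/-! ### Locality and translation invariance -/

/-- `y` is within sup-distance `r` of `k`. -/
def Near (r : ℤ) (k y : Cell) : Prop :=
  -r ≤ y.1 - k.1 ∧ y.1 - k.1 ≤ r ∧ -r ≤ y.2 - k.2 ∧ y.2 - k.2 ≤ r

theorem Near.add {r : ℤ} {k y u : Cell} (h : Near r k y) (hu : InP u) :
    Near (r + 101) k (y + u) := by
  simp only [Near, InP, InBox, Prod.fst_add, Prod.snd_add] at *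
  omega

theorem Near.sub {r : ℤ} {k y u : Cell} (h : Near r k y) (hu : InP u) :
    Near (r + 101) k (y - u) := by
  rw [sub_eq_add_neg]
  exact h.add hu.neg

theorem Near.weaken {r r' : ℤ} {k y : Cell} (h : Near r k y) (hr : r ≤ r') : Near r' k y := by
  simp only [Near] at *
  omega

theorem near_self (k : Cell) : Near 0 k k := by simp [Near]

theorem inP_vw : InP vw := by simp [InP, vw]

theorem inP_vt : InP vt := by simp [InP, vt]

theorem inP_qv (z : Col) : InP z.qv := by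
  rcases z.qv_cases with ⟨-, h⟩ | ⟨-, h⟩ <;> rw [h] <;> simp [InP, InBox]

theorem Col.valid.ell_d {d e : Cell} (h : (Col.ell d e).valid) : InP d := by
  simp only [Col.valid, InP] at *
  tauto

theorem Col.valid.ell_e {d e : Cell} (h : (Col.ell d e).valid) : InP e := Or.inl h.2.1

section Transfer

variable {Q P : Pos} {k δ : Cell} (hQ : Valid Q)
  (H : ∀ y, Near 303 k y → ∀ c, Q y = some c → P (y + δ) = some c)

include hQ H

theorem Link.transfer {x : Cell} (hx : Near 202 k x) : Link Q x → Link P (x + δ) := by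
  rintro ⟨d, e, h1, h2⟩
  have hd := hx.sub (hQ _ _ h1).ell_d
  refine ⟨d, e, H _ (hx.weaken (by norm_num)) _ h1, ?_⟩
  rw [add_sub_right_comm]
  rcases h2 with ⟨d', e', h2⟩ | ⟨h2, h3⟩
  · exact Or.inl ⟨d', e', H _ hd _ h2⟩
  · exact Or.inr ⟨h2, H _ hd _ h3⟩

theorem Link3.transfer {x : Cell} (hx : Near 101 k x) : Link3 Q x → Link3 P (x + δ) := by
  rintro ⟨d, e, h1, h2⟩
  refine ⟨d, e, H _ (hx.weaken (by norm_num)) _ h1, ?_⟩
  rw [add_sub_right_comm]
  exact Link.transfer hQ H (hx.sub (hQ _ _ h1).ell_d) h2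

omit hQ in
theorem CapA.transfer {x : Cell} (hx : Near 202 k x) : CapA Q x → CapA P (x + δ) := by
  rintro ⟨h1, c, h2, h3⟩
  refine ⟨H _ (hx.weaken (by norm_num)) _ h1, c, ?_, h3⟩
  rw [add_right_comm]
  exact H _ (hx.add inP_vw) _ h2

omit hQ in
theorem CapC.transfer {x : Cell} (hx : Near 202 k x) : CapC Q x → CapC P (x + δ) := by
  rintro ⟨⟨c, h1, h2⟩, h3⟩
  refine ⟨⟨c, H _ (hx.weaken (by norm_num)) _ h1, h2⟩, ?_⟩
  rw [add_sub_right_comm]
  exact H _ (hx.sub inP_vw) _ h3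

omit hQ in
theorem CapS.transfer {x : Cell} (hx : Near 202 k x) : CapS Q x → CapS P (x + δ) := by
  rintro ⟨⟨c, h1⟩, h3⟩
  refine ⟨⟨c, H _ (hx.weaken (by norm_num)) _ h1⟩, ?_⟩
  rw [add_sub_right_comm]
  exact H _ (hx.sub inP_vt) _ h3

theorem BadAt.transfer : BadAt Q k → BadAt P (k + δ) := by
  have h0 : Near 0 k k := near_self k
  have hk : ∀ c, Q k = some c → P (k + δ) = some c := H _ (h0.weaken (by norm_num))
  rintro (⟨h1, h2⟩ | ⟨d, e, h1, h2, h3⟩ | ⟨z, h1, h2, h3⟩)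
  · refine Or.inl ⟨hk _ h1, ?_⟩
    rw [add_right_comm]
    exact H _ ((h0.add inP_vw).weaken (by norm_num)) _ h2
  · refine Or.inr (Or.inl ⟨d, e, hk _ h1, ?_, ?_⟩)
    · rw [add_sub_right_comm]
      exact Link.transfer hQ H ((h0.sub (hQ _ _ h1).ell_d).weaken (by norm_num)) h2
    · rw [add_right_comm]
      exact H _ ((h0.add (hQ _ _ h1).ell_e).weaken (by norm_num)) _ h3
  · have hz := (hQ _ _ h1).ptr
    have n1 : Near 202 k (k + z.ptr) := (h0.add hz).weaken (by norm_num)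
    have n2 : Near 101 k (k + z.qv) := (h0.add (inP_qv z)).weaken (by norm_num)
    have n3 : Near 101 k (k - z.qv) := (h0.sub (inP_qv z)).weaken (by norm_num)
    refine Or.inr (Or.inr ⟨z, hk _ h1, ?_, ?_⟩)
    · rcases h2 with h2 | ⟨h2, h4⟩
      · left
        rw [add_right_comm]
        exact H _ (n1.weaken (by norm_num)) _ h2
      · refine Or.inr ⟨?_, ?_⟩
        · unfold Mis
          rw [add_right_comm k δ, add_right_comm k δ]
          rcases h2 with ⟨h5, c, h6, h7⟩ | ⟨h5, h6⟩ | ⟨h5, h6⟩ | ⟨h5, h6⟩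
          · exact Or.inl ⟨h5, c, H _ ((h0.add inP_vw).weaken (by norm_num)) _ h6, h7⟩
          · exact Or.inr (Or.inl ⟨h5.transfer H n1, h6⟩)
          · exact Or.inr (Or.inr (Or.inl ⟨h5.transfer H n1, h6⟩))
          · exact Or.inr (Or.inr (Or.inr ⟨h5.transfer H n1, h6⟩))
        · rw [add_sub_right_comm]
          exact H _ ((h0.sub hz).weaken (by norm_num)) _ h4
    · unfold App
      rw [add_right_comm k δ, add_sub_right_comm]
      rcases h3 with h3 | ⟨h3, h4⟩
      · exact Or.inl (h3.transfer hQ H n2)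
      · refine Or.inr ⟨?_, h4.transfer hQ H n3⟩
        have n4 := n2.weaken (show (101 : ℤ) ≤ 202 by norm_num)
        exact h3.imp (CapA.transfer H n4) (Or.imp (CapC.transfer H n4) (CapS.transfer H n4))

end Transfer

end Pool.Agent.Lib.MP_0fa330_lc
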