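import Mathlib
import Pool.Agent.Lib.MP_0fa330_lc.Design

set_option autoImplicit false

namespace Pool.Agent.Lib.MP_0fa330_lc

open Function

/-- Every cell whose colour is not `bcol` points to a coloured cell. -/
def Tied (P : Pos) : Prop := ∀ k z, P k = some z → z ≠ bcol → P (k + z.ptr) ≠ none

theorem Ext.back {P P' : Pos} (h : Ext P P') {x : Cell} (hx : P x ≠ none) {c : Col}
    (hc : P' x = some c) : P x = some c := by
  obtain ⟨c', hc'⟩ := Option.ne_none_iff_exists'.1 hx
  have := h x c' hc'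
  rw [hc] at this
  rw [hc', this]

theorem Ext.ne_none {P P' : Pos} (h : Ext P P') {x : Cell} (hx : P x ≠ none) : P' x ≠ none := by
  obtain ⟨c', hc'⟩ := Option.ne_none_iff_exists'.1 hx
  rw [h x c' hc']
  simp

theorem vw_ne_neg : vw ≠ -vw := by simp [vw]

theorem ne_bcol_of_ptr {c : Col} (h : c.ptr = -vw) : c ≠ bcol := by
  rintro rfl
  exact vw_ne_neg h

section Stable

variable {P P' : Pos} (hE : Ext P P') (hT : Tied P)

include hE hT

theorem Link.back {x : Cell} (hx : P x ≠ none) : Link P' x → Link P x := by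
  rintro ⟨d, e, h1, h2⟩
  have h3 := hE.back hx h1
  have h4 : P (x - d) ≠ none := by
    have := hT x _ h3 (by simp [bcol])
    rwa [Col.ptr, ← sub_eq_add_neg] at this
  refine ⟨d, e, h3, ?_⟩
  rcases h2 with ⟨d', e', h2⟩ | ⟨h2, h5⟩
  · exact Or.inl ⟨d', e', hE.back h4 h2⟩
  · exact Or.inr ⟨h2, hE.back h4 h5⟩

theorem Link3.back {x : Cell} (hx : P x ≠ none) : Link3 P' x → Link3 P x := by
  rintro ⟨d, e, h1, h2⟩
  have h3 := hE.back hx h1
  have h4 : P (x - d) ≠ none := by
    have := hT x _ h3 (by simp [bcol])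
    rwa [Col.ptr, ← sub_eq_add_neg] at this
  exact ⟨d, e, h3, h2.back hE hT h4⟩

theorem CapA.back {x : Cell} (hx : P x ≠ none) : CapA P' x → CapA P x := by
  rintro ⟨h1, c, h2, h3⟩
  have h4 := hE.back hx h1
  exact ⟨h4, c, hE.back (hT x _ h4 (by simp [bcol])) h2, h3⟩

theorem CapC.back {x : Cell} (hx : P x ≠ none) : CapC P' x → CapC P x := by
  rintro ⟨⟨c, h1, h2⟩, h3⟩
  have h4 := hE.back hx h1
  have h5 := hT x _ h4 (ne_bcol_of_ptr h2)
  rw [h2, ← sub_eq_add_neg] at h5
  exact ⟨⟨c, h4, h2⟩, hE.back h5 h3⟩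

theorem CapS.back {x : Cell} (hx : P x ≠ none) : CapS P' x → CapS P x := by
  rintro ⟨⟨e, h1⟩, h3⟩
  have h4 := hE.back hx h1
  have h5 := hT x _ h4 (by simp [bcol])
  rw [Col.ptr, ← sub_eq_add_neg] at h5
  exact ⟨⟨e, h4⟩, hE.back h5 h3⟩

theorem Cap.back {x : Cell} (hx : P x ≠ none) : Cap P' x → Cap P x :=
  Or.imp (CapA.back hE hT hx) (Or.imp (CapC.back hE hT hx) (CapS.back hE hT hx))

theorem Mis.back {k : Cell} {z : Col} (hx : P (k + z.ptr) ≠ none) : Mis P' k z → Mis P k z := by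
  rintro (⟨h1, c, h2, h3⟩ | ⟨h1, h2⟩ | ⟨h1, h2⟩ | ⟨h1, h2⟩)
  · subst h1
    exact Or.inl ⟨rfl, c, hE.back hx h2, h3⟩
  · exact Or.inr (Or.inl ⟨h1.back hE hT hx, h2⟩)
  · exact Or.inr (Or.inr (Or.inl ⟨h1.back hE hT hx, h2⟩))
  · exact Or.inr (Or.inr (Or.inr ⟨h1.back hE hT hx, h2⟩))

end Stable

/-- A far cell of the second player that no ladder can exploit any more. -/
def Dead (P : Pos) (b : Cell) : Prop :=
  P (b + (0, 1)) ≠ none ∧ ¬ Link3 P (b + (0, 1)) ∧
    (Cap P (b + (0, 1)) → P (b - (0, 1)) ≠ none ∧ ¬ Link3 P (b - (0, 1)))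

theorem Dead.mono {P P' : Pos} (hE : Ext P P') (hT : Tied P) {b : Cell} (h : Dead P b) :
    Dead P' b := by
  refine ⟨hE.ne_none h.1, fun h1 => h.2.1 (h1.back hE hT h.1), fun h1 => ?_⟩
  obtain ⟨h2, h3⟩ := h.2.2 (h1.back hE hT h.1)
  exact ⟨hE.ne_none h2, fun h4 => h3 (h4.back hE hT h2)⟩

/-- The three local conditions at a coloured cell. -/
def Good (P : Pos) (k : Cell) (z : Col) : Prop :=
  (∃ c, P (k + z.ptr) = some c ∧ c ≠ z.comp) ∧
  (Mis P k z → ∃ c, P (k - z.ptr) = some c ∧ c ≠ Col.xx false (-z.ptr)) ∧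
  (∀ d e, z = Col.ell d e → Link P (k - d) → ∃ c, P (k + e) = some c ∧ c ≠ Col.xx false e)

/-- The invariant of the second player. -/
structure Inv (P : Pos) (U Act : Set Cell) (D : ℤ) : Prop where
  fin : {x | P x ≠ none}.Finite
  valid : Valid P
  u0 : ∀ b ∈ U, P b = some bcol
  good : ∀ k z, P k = some z → k ∉ U → Good P k z
  i4 : ∀ b ∈ U, b ∈ Act ∨ Dead P b
  sub : Act ⊆ U
  far1 : ∀ b ∈ Act, ∀ h, Link P h → ¬ Near D b h
  far2 : ∀ b ∈ Act, ∀ b' ∈ Act, b ≠ b' → ¬ Near D b b'

theorem Inv.notMem {P : Pos} {U Act : Set Cell} {D : ℤ} (h : Inv P U Act D) {k : Cell} {z : Col}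
    (hk : P k = some z) (hz : z ≠ bcol) : k ∉ U := by
  intro hU
  rw [h.u0 k hU] at hk
  exact hz (Option.some.inj hk).symm

theorem Inv.tied {P : Pos} {U Act : Set Cell} {D : ℤ} (h : Inv P U Act D) : Tied P := by
  intro k z hk hz
  obtain ⟨c, hc, -⟩ := (h.good k z hk (h.notMem hk hz)).1
  rw [hc]
  simp

theorem Inv.not_bad {P : Pos} {U Act : Set Cell} {D : ℤ} (h : Inv P U Act D) (hD : 1 ≤ D) :
    ¬ Bad P := by
  rintro ⟨k, ⟨h1, h2⟩ | ⟨d, e, h1, h2, h3⟩ | ⟨z, h1, h2, h3⟩⟩
  · obtain ⟨c, hc, hc2⟩ := (h.good k _ h1 (h.notMem h1 (by simp [bcol]))).1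
    rw [Col.ptr, h2] at hc
    exact hc2 (Option.some.inj hc).symm
  · obtain ⟨c, hc, hc2⟩ := (h.good k _ h1 (h.notMem h1 (by simp [bcol]))).2.2 d e rfl h2
    rw [h3] at hc
    exact hc2 (Option.some.inj hc).symm
  · by_cases hU : k ∈ U
    · have hz : z = bcol := by
        rw [h.u0 k hU] at h1
        exact (Option.some.inj h1).symm
      subst hz
      unfold App at h3
      rw [bcol_qv] at h3
      rcases h.i4 k hU with hA | hd
      · rcases h3 with h3 | ⟨-, h3⟩
        · refine h.far1 k hA _ h3.link ?_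
          simp only [Near, Prod.fst_add, Prod.snd_add]
          omega
        · refine h.far1 k hA _ h3.link ?_
          simp only [Near, Prod.fst_sub, Prod.snd_sub]
          omega
      · rcases h3 with h3 | ⟨h4, h3⟩
        · exact hd.2.1 h3
        · exact (hd.2.2 h4).2 h3
    · obtain ⟨⟨c, hc, hc2⟩, g2, -⟩ := h.good k z h1 hU
      rcases h2 with h2 | ⟨h2, h4⟩
      · rw [h2] at hc
        exact hc2 (Option.some.inj hc).symm
      · obtain ⟨c', hc', hc3⟩ := g2 h2
        rw [h4] at hc'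
        exact hc3 (Option.some.inj hc').symm

theorem Good.mono {P P' : Pos} (hE : Ext P P') (hT : Tied P) {k : Cell} {z : Col}
    (h : Good P k z) : Good P' k z := by
  obtain ⟨⟨c, hc, hc2⟩, g2, g3⟩ := h
  have hne : P (k + z.ptr) ≠ none := by rw [hc]; simp
  refine ⟨⟨c, hE _ _ hc, hc2⟩, fun hM => ?_, fun d e hz hL => ?_⟩
  · obtain ⟨c', h1, h2⟩ := g2 (hM.back hE hT hne)
    exact ⟨c', hE _ _ h1, h2⟩
  · subst hz
    rw [Col.ptr, ← sub_eq_add_neg] at hne
    obtain ⟨c', h1, h2⟩ := g3 d e rfl (hL.back hE hT hne)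
    exact ⟨c', hE _ _ h1, h2⟩

theorem Inv.extend {P P' : Pos} {U Act Act' : Set Cell} {D D' : ℤ} (h : Inv P U Act D')
    (hE : Ext P P') (hfin : {x | P' x ≠ none}.Finite) (hval : Valid P') (hsub : Act' ⊆ Act)
    (hD : D ≤ D') (hnew : ∀ k z, P k = none → P' k = some z → Good P' k z)
    (hdead : ∀ b ∈ Act, b ∉ Act' → Dead P' b)
    (hfar : ∀ b ∈ Act', ∀ g, P g = none → Link P' g → ¬ Near D b g) : Inv P' U Act' D where
  fin := hfin
  valid := hval
  u0 := fun b hb => hE _ _ (h.u0 b hb)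
  good := by
    intro k z hk hU
    by_cases h0 : P k = none
    · exact hnew k z h0 hk
    · exact (h.good k z (hE.back h0 hk) hU).mono hE h.tied
  i4 := by
    intro b hb
    by_cases h1 : b ∈ Act'
    · exact Or.inl h1
    · rcases h.i4 b hb with h2 | h2
      · exact Or.inr (hdead b h2 h1)
      · exact Or.inr (h2.mono hE h.tied)
  sub := hsub.trans h.sub
  far1 := by
    intro b hb g hg
    by_cases h0 : P g = none
    · exact hfar b hb g h0 hg
    · exact fun hn => h.far1 b (hsub hb) g (hg.back hE h.tied h0) (hn.weaken hD)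
  far2 := fun b hb b' hb' hne hn => h.far2 b (hsub hb) b' (hsub hb') hne (hn.weaken hD)

theorem finite_update {P : Pos} (h : {x | P x ≠ none}.Finite) (y : Cell) (c : Col) :
    {x | update P y (some c) x ≠ none}.Finite := by
  refine (h.insert y).subset fun x hx => ?_
  by_cases hxy : x = y
  · exact Or.inl hxy
  · rw [Set.mem_ofPred_eq, update_of_ne hxy] at hx
    exact Or.inr hx

theorem Valid.update {P : Pos} (h : Valid P) (y : Cell) {c : Col} (hc : c.valid) :
    Valid (update P y (some c)) := by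
  intro x c' hx
  by_cases hxy : x = y
  · subst hxy
    rw [update_self] at hx
    rw [← Option.some.inj hx]
    exact hc
  · rw [update_of_ne hxy] at hx
    exact h x c' hx

theorem Near.symm {r : ℤ} {x y : Cell} (h : Near r x y) : Near r y x := by
  simp only [Near] at *
  omega

/-- The far move. -/
theorem Inv.free {P : Pos} {U Act : Set Cell} {D : ℤ} (h : Inv P U Act D) (hD : 0 ≤ D) :
    ∃ y, P y = none ∧ Inv (update P y (some bcol)) (insert y U) (insert y Act) D := by
  obtain ⟨M, hM⟩ := (h.fin.image Prod.fst).bddAbove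
  have hfar : ∀ x, P x ≠ none → ¬ Near D (M + D + 1, 0) x := by
    intro x hx hn
    have := hM ⟨x, hx, rfl⟩
    simp only [Near] at hn
    omega
  have hy : P (M + D + 1, 0) = none := by
    by_contra hcon
    exact hfar _ hcon ((near_self _).weaken hD)
  set y : Cell := (M + D + 1, 0) with hydef
  have hE := Ext.update hy bcol
  have hocc : ∀ b ∈ Act, P b ≠ none := fun b hb => by rw [h.u0 b (h.sub hb)]; simp
  have hlink : ∀ g, Link (update P y (some bcol)) g → P g ≠ none := by
    rintro g ⟨d, e, h1, -⟩ h0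
    by_cases hgy : g = y
    · rw [hgy, update_self] at h1
      simp [bcol] at h1
    · rw [update_of_ne hgy, h0] at h1
      cases h1
  refine ⟨y, hy, finite_update h.fin _ _, h.valid.update _ inP_vw, ?_, ?_, ?_, ?_, ?_, ?_⟩
  · rintro b (rfl | hb)
    · exact update_self ..
    · exact hE _ _ (h.u0 b hb)
  · intro k z hk hU
    rw [Set.mem_insert_iff, not_or] at hU
    rw [update_of_ne hU.1] at hk
    exact (h.good k z hk hU.2).mono hE h.tied
  · rintro b (rfl | hb)
    · exact Or.inl (Or.inl rfl)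
    · exact (h.i4 b hb).imp Or.inr (Dead.mono hE h.tied)
  · exact Set.insert_subset_insert h.sub
  · rintro b (rfl | hb) g hg
    · exact hfar g (hlink g hg)
    · exact h.far1 b hb g (hg.back hE h.tied (hlink g hg))
  · rintro b (rfl | hb) b' (rfl | hb') hne
    · exact absurd rfl hne
    · exact hfar b' (hocc b' hb')
    · exact fun hn => hfar b (hocc b hb) hn.symm
    · exact h.far2 b hb b' hb' hne

theorem new_cell {P : Pos} {x k : Cell} {z z' : Col} (h0 : P k = none)
    (h1 : update P x (some z) k = some z') : k = x ∧ z' = z := by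
  by_cases hk : k = x
  · subst hk
    rw [update_self] at h1
    exact ⟨rfl, (Option.some.inj h1).symm⟩
  · rw [update_of_ne hk, h0] at h1
    cases h1

theorem new_cell2 {P : Pos} {x y k : Cell} {z r z' : Col} (h0 : P k = none)
    (h1 : update (update P x (some z)) y (some r) k = some z') :
    (k = x ∧ z' = z) ∨ (k = y ∧ z' = r) := by
  by_cases hk : k = y
  · subst hk
    rw [update_self] at h1
    exact Or.inr ⟨rfl, (Option.some.inj h1).symm⟩
  · rw [update_of_ne hk] at h1
    exact Or.inl (new_cell h0 h1)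

theorem InP.ne_zero {u : Cell} (h : InP u) : u ≠ 0 := by
  rintro rfl
  simp [InP, InBox] at h

theorem InP.ne_neg {u : Cell} (h : InP u) : u ≠ -u := by
  intro h1
  have h2 := congrArg Prod.fst h1
  have h3 := congrArg Prod.snd h1
  simp only [InP, InBox, Prod.fst_neg, Prod.snd_neg] at *
  omega

theorem ell_ptr_ne {d e : Cell} (h : (Col.ell d e).valid) : (Col.ell d e).ptr ≠ -vw := by
  intro h1
  have h2 := congrArg Prod.fst h1
  simp only [Col.valid, InBox, Col.ptr, vw, Prod.fst_neg] at *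
  omega

/-- A neutral colour pointing to a cell that is not part of a source is fine. -/
theorem good_nn {P : Pos} {y : Cell} {β : Bool} {u : Cell} {z : Col}
    (h1 : P (y + u) = some z) (h2 : z ≠ Col.xx β u)
    (h3 : CapA P (y + u) → u = -vw) (h4 : CapC P (y + u) → u = vw) (h5 : ¬ CapS P (y + u)) :
    Good P y (Col.nn β u) := by
  refine ⟨⟨z, h1, h2⟩, ?_, fun d e h => by cases h⟩
  rintro (⟨h, -⟩ | ⟨h, h', -⟩ | ⟨h, h'⟩ | ⟨h, -⟩)
  · cases h
  · exact absurd (h3 h) h'
  · exact absurd (h4 h) h'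
  · exact absurd h h5

/-- An old cell cannot point to an uncoloured cell unless it has the colour `bcol`. -/
theorem Tied.not_point {P : Pos} (hT : Tied P) {x j : Cell} {c : Col} (hx : P x = none)
    (hj : P j = some c) (hc : c ≠ bcol) : j + c.ptr ≠ x := by
  intro h
  exact hT j c hj hc (h ▸ hx)

end Pool.Agent.Lib.MP_0fa330_lc
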