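import Mathlib
import Pool.Agent.Lib.MP_0fa330_lc.Survive

set_option autoImplicit false

namespace Pool.Agent.Lib.MP_0fa330_lc

open Function

theorem not_link_nn {P : Pos} {y : Cell} {β : Bool} {u : Cell} (h : P y = some (Col.nn β u)) :
    ¬ Link P y := by
  rintro ⟨d, e, h1, -⟩
  rw [h] at h1
  cases h1

theorem add_ne_self {x u : Cell} (h : InP u) : x + u ≠ x := by
  intro h1
  exact h.ne_zero (add_eq_left.1 h1)

/-- The answer of the second player restores the invariant. -/
theorem Inv.step {P : Pos} {U Act : Set Cell} {D : ℤ} (h : Inv P U Act (2 * D + 101))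
    (hD : 1 ≤ D) {x : Cell} {z : Col} (hx : P x = none) (hz : z.valid) :
    ∃ (y : Cell) (r : Col) (U' Act' : Set Cell), r.valid ∧ update P x (some z) y = none ∧
      Inv (update (update P x (some z)) y (some r)) U' Act' D := by
  have hT := h.tied
  have E1 := Ext.update hx z
  have hDD : D ≤ 2 * D + 101 := by omega
  have hp := hz.ptr
  set P1 := update P x (some z) with hP1
  have h1x : P1 x = some z := update_self ..
  have h1ne : ∀ k, k ≠ x → P1 k = P k := fun k hk => update_of_ne hk ..
  -- answer by a far move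
  have viaFree : ∀ Act' : Set Cell, Act' ⊆ Act → Good P1 x z →
      (∀ b ∈ Act, b ∉ Act' → Dead P1 b) → (∀ b ∈ Act', Link P1 x → ¬ Near D b x) →
      ∃ (y : Cell) (r : Col) (U' Act' : Set Cell), r.valid ∧ P1 y = none ∧
        Inv (update P1 y (some r)) U' Act' D := by
    intro Act' hs hg hd hf
    have h2 : Inv P1 U Act' D := by
      refine h.extend E1 (finite_update h.fin _ _) (h.valid.update _ hz) hs hDD ?_ hd ?_
      · intro k z' h0 h1
        obtain ⟨rfl, rfl⟩ := new_cell h0 h1
        exact hg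
      · intro b hb g h0 hL
        obtain ⟨d, e, h1, -⟩ := id hL
        obtain ⟨rfl, -⟩ := new_cell h0 h1
        exact hf b hb hL
    obtain ⟨y, hy, h3⟩ := h2.free (by omega)
    exact ⟨y, bcol, _, _, inP_vw, hy, h3⟩
  -- answer by a neutral colour
  have viaNN : ∀ (y : Cell) (β : Bool) (u : Cell) (Act' : Set Cell), InP u → P1 y = none →
      Act' ⊆ Act →
      (∀ P2 : Pos, Ext P1 P2 → P2 y = some (Col.nn β u) → (∀ k, k ≠ y → P2 k = P1 k) →
        Good P2 x z ∧ Good P2 y (Col.nn β u) ∧ (∀ b ∈ Act, b ∉ Act' → Dead P2 b) ∧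
        (∀ b ∈ Act', Link P2 x → ¬ Near D b x)) →
      ∃ (y : Cell) (r : Col) (U' Act' : Set Cell), r.valid ∧ P1 y = none ∧
        Inv (update P1 y (some r)) U' Act' D := by
    intro y β u Act' hu hy hs hall
    have E2 := Ext.update hy (Col.nn β u)
    obtain ⟨g1, g2, g3, g4⟩ := hall _ E2 (update_self ..) (fun k hk => update_of_ne hk ..)
    refine ⟨y, Col.nn β u, U, Act', hu, hy, ?_⟩
    refine h.extend (E1.trans E2) (finite_update (finite_update h.fin _ _) _ _)
      ((h.valid.update _ hz).update _ hu) hs hDD ?_ g3 ?_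
    · intro k z' h0 h1
      rcases new_cell2 h0 h1 with ⟨rfl, rfl⟩ | ⟨rfl, rfl⟩
      · exact g1
      · exact g2
    · intro b hb g h0 hL
      obtain ⟨d, e, h1, -⟩ := id hL
      rcases new_cell2 h0 h1 with ⟨rfl, -⟩ | ⟨-, h2⟩
      · exact g4 b hb hL
      · cases h2
  by_cases c1 : P1 (x + z.ptr) = none
  · -- the pointer cell is free: cap it
    obtain ⟨β, -, hne⟩ := z.cap_eq
    refine viaNN (x + z.ptr) β (-z.ptr) Act hp.neg c1 subset_rfl fun P2 E2 h2y _ => ?_
    have h2x := E2 _ _ h1x
    refine ⟨⟨⟨_, h2y, ?_⟩, ?_, ?_⟩, ?_, fun b hb hb' => absurd hb hb', ?_⟩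
    · obtain ⟨β', hβ'⟩ := z.comp_eq
      rw [hβ']
      simp
    · rintro (⟨rfl, c, h3, h4⟩ | ⟨⟨h3, -⟩, -⟩ | ⟨⟨⟨c, h3, h4⟩, -⟩, h5⟩ | ⟨⟨⟨e, h3⟩, -⟩, -⟩)
      · rw [Col.ptr, h3] at h2y
        rw [Option.some.inj h2y] at h4
        exact absurd rfl h4
      · rw [h2y] at h3
        cases h3
      · rw [h2y] at h3
        rw [← Option.some.inj h3] at h4
        exact absurd (neg_injective h4) h5
      · rw [h2y] at h3
        cases h3
    · rintro d e rfl hL
      rw [Col.ptr, ← sub_eq_add_neg] at h2y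
      exact absurd hL (not_link_nn h2y)
    · refine good_nn (z := z) ?_ hne ?_ ?_ ?_ <;> rw [add_neg_cancel_right]
      · exact h2x
      · rintro ⟨h3, -⟩
        rw [h2x] at h3
        rw [Option.some.inj h3]
        rfl
      · rintro ⟨⟨c, h3, h4⟩, -⟩
        rw [h2x] at h3
        rw [Option.some.inj h3, h4, neg_neg]
      · rintro ⟨⟨e, h3⟩, h4⟩
        rw [h2x] at h3
        rw [Option.some.inj h3, Col.ptr, ← sub_eq_add_neg, h4] at h2y
        cases h2y
    · rintro b - ⟨d, e, h3, h4⟩
      rw [h2x] at h3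
      rw [Option.some.inj h3, Col.ptr, ← sub_eq_add_neg] at h2y
      rw [h2y] at h4
      rcases h4 with ⟨d', e', h4⟩ | ⟨-, h4⟩ <;> cases h4
  -- the pointer cell is coloured
  have c1' : P (x + z.ptr) ≠ none := by rwa [h1ne _ (add_ne_self hp)] at c1
  obtain ⟨c, hc⟩ := Option.ne_none_iff_exists'.1 c1'
  have hcne : c ≠ z.comp := by
    obtain ⟨β', hβ'⟩ := z.comp_eq
    rw [hβ']
    rintro rfl
    exact hT.not_point hx hc (by simp [bcol]) (by simp [Col.ptr])
  have hT1 : Tied P1 := by
    intro k z' hk hz'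
    by_cases h0 : P k = none
    · obtain ⟨rfl, rfl⟩ := new_cell h0 hk
      exact c1
    · exact E1.ne_none (hT k z' (E1.back h0 hk) hz')
  have hx1 : P1 x ≠ none := by rw [h1x]; simp
  have g1 : ∀ P2 : Pos, Ext P1 P2 → ∃ c, P2 (x + z.ptr) = some c ∧ c ≠ z.comp :=
    fun P2 E2 => ⟨c, E2 _ _ (E1 _ _ hc), hcne⟩
  by_cases hL : Link P1 x
  · obtain ⟨d, e, h3, hback⟩ := id hL
    have hze : z = Col.ell d e := by
      rw [h1x] at h3
      exact Option.some.inj h3
    subst hze
    have hxd : x + (Col.ell d e).ptr = x - d := by rw [Col.ptr, ← sub_eq_add_neg]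
    have notMis : ∀ P2 : Pos, Ext P1 P2 → ¬ Mis P2 x (Col.ell d e) := by
      intro P2 E2 hM
      have hM1 := hM.back E2 hT1 c1
      unfold Mis at hM1
      rw [hxd] at hM1
      rcases hM1 with ⟨h4, -⟩ | ⟨⟨h4, -⟩, -, h5⟩ | ⟨⟨⟨c', h4, h5⟩, -⟩, -⟩ | ⟨-, h5⟩
      · cases h4
      · rcases hback with ⟨d', e', h6⟩ | ⟨h6, -⟩
        · rw [h4] at h6
          cases h6
        · exact h5 e (by rw [h6])
      · rcases hback with ⟨d', e', h6⟩ | ⟨-, h6⟩
        · rw [h4] at h6
          rw [Option.some.inj h6] at h5 h4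
          exact ell_ptr_ne ((h.valid.update x hz) _ _ h4) h5
        · rw [h4] at h6
          rw [Option.some.inj h6] at h5
          exact vw_ne_neg h5
      · exact h5 d e rfl
    rw [hxd] at c1 c1'
    by_cases hL2 : Link P1 (x - d)
    · -- a ladder move
      have hL3 := hL2.back E1 hT c1'
      have hfar : ∀ b ∈ Act, ¬ Near D b x := fun b hb hn =>
        h.far1 b hb _ hL3 ((hn.sub hz.ell_d).weaken (by omega))
      by_cases c2 : P1 (x + e) = none
      · refine viaNN (x + e) false (-e) Act hz.ell_e.neg c2 subset_rfl fun P2 E2 h2y _ => ?_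
        have h2x := E2 _ _ h1x
        refine ⟨⟨g1 P2 E2, fun hM => absurd hM (notMis P2 E2), ?_⟩, ?_,
          fun b hb hb' => absurd hb hb', fun b hb _ => hfar b hb⟩
        · intro d' e' h4 _
          cases h4
          exact ⟨_, h2y, by simp⟩
        · refine good_nn (z := Col.ell d e) ?_ (by simp) ?_ ?_ ?_ <;> rw [add_neg_cancel_right]
          · exact h2x
          · rintro ⟨h4, -⟩
            rw [h2x] at h4
            cases h4
          · rintro ⟨⟨c', h4, h5⟩, -⟩
            rw [h2x] at h4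
            rw [← Option.some.inj h4] at h5
            exact absurd h5 (ell_ptr_ne hz)
          · rintro ⟨⟨e', h4⟩, h5⟩
            rw [h2x] at h4
            cases h4
            obtain ⟨d', e'', h6, -⟩ := hL2
            rw [E2 _ _ h6] at h5
            cases h5
      · refine viaFree Act subset_rfl ⟨g1 P1 (Ext.refl _),
          fun hM => absurd hM (notMis P1 (Ext.refl _)), ?_⟩
          (fun b hb hb' => absurd hb hb') (fun b hb _ => hfar b hb)
        intro d' e' h4 _
        cases h4
        obtain ⟨c', hc'⟩ := Option.ne_none_iff_exists'.1 c2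
        refine ⟨c', hc', ?_⟩
        rintro rfl
        rw [h1ne _ (add_ne_self hz.ell_e)] at hc'
        exact hT.not_point hx hc' (by simp [bcol]) (by simp [Col.ptr])
    · -- a new source
      have hgood : ∀ P2 : Pos, Ext P1 P2 → Good P2 x (Col.ell d e) := by
        intro P2 E2
        refine ⟨g1 P2 E2, fun hM => absurd hM (notMis P2 E2), ?_⟩
        intro d' e' h4 h5
        cases h4
        exact absurd (h5.back E2 hT1 c1) hL2
      by_cases c2 : ∃ b ∈ Act, Near D b x
      · obtain ⟨b, hb, hbx⟩ := c2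
        have hfar : ∀ b' ∈ Act \ {b}, ¬ Near D b' x := by
          intro b' hb' hn
          refine h.far2 b hb b' hb'.1 (fun h4 => hb'.2 h4.symm) ?_
          simp only [Near] at *
          omega
        have hmem : ∀ b' ∈ Act, b' ∉ Act \ {b} → b' = b := by
          intro b' h4 h5
          by_contra h6
          exact h5 ⟨h4, h6⟩
        have noL3 : ∀ v, Near 1 b v → ¬ Link3 P1 v := by
          intro v hv h4
          by_cases h0 : P v = none
          · obtain ⟨d', e', h5, h6⟩ := h4
            obtain ⟨rfl, h7⟩ := new_cell h0 h5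
            cases h7
            exact hL2 h6
          · exact h.far1 b hb v (h4.back E1 hT h0).link (hv.weaken (by omega))
        have n1 : Near 1 b (b + (0, 1)) := by
          simp only [Near, Prod.fst_add, Prod.snd_add]
          omega
        have n2 : Near 1 b (b - (0, 1)) := by
          simp only [Near, Prod.fst_sub, Prod.snd_sub]
          omega
        have hb1 : P1 b = some bcol := E1 _ _ (h.u0 b (h.sub hb))
        have goodb : ∀ (P2 : Pos) (y u : Cell), Ext P1 P2 → y + u = b → InBox u →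
            Good P2 y (Col.nn false u) := by
          intro P2 y u E2 hyu hu
          have hb2 := E2 _ _ hb1
          refine good_nn (z := bcol) ?_ (by simp [bcol]) ?_ ?_ ?_ <;> rw [hyu]
          · exact hb2
          · rintro ⟨h4, -⟩
            rw [hb2] at h4
            cases h4
          · rintro ⟨⟨c', h4, h5⟩, -⟩
            rw [hb2] at h4
            exact absurd (Option.some.inj h4).symm (ne_bcol_of_ptr h5)
          · rintro ⟨⟨e', h4⟩, -⟩
            rw [hb2] at h4
            cases h4
        by_cases c3 : P1 (b + (0, 1)) = none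
        · have hu : InBox (-(0, 1)) := by simp [InBox]
          refine viaNN (b + (0, 1)) false (-(0, 1)) (Act \ {b}) (Or.inl hu) c3 Set.sdiff_subset
            fun P2 E2 h2y _ => ⟨hgood P2 E2, goodb P2 _ _ E2 (add_neg_cancel_right ..) hu, ?_,
              fun b' hb' _ => hfar b' hb'⟩
          intro b' h4 h5
          rw [hmem b' h4 h5]
          refine ⟨by rw [h2y]; simp, fun h6 => not_link_nn h2y h6.link, ?_⟩
          rintro (⟨h6, -⟩ | ⟨⟨c', h6, h7⟩, -⟩ | ⟨⟨e', h6⟩, -⟩)
          · rw [h2y] at h6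
            cases h6
          · rw [h2y] at h6
            rw [← Option.some.inj h6] at h7
            simp [Col.ptr, vw] at h7
          · rw [h2y] at h6
            cases h6
        · by_cases c4 : P1 (b - (0, 1)) = none
          · have hu : InBox (0, 1) := by simp [InBox]
            refine viaNN (b - (0, 1)) false (0, 1) (Act \ {b}) (Or.inl hu) c4 Set.sdiff_subset
              fun P2 E2 h2y _ => ⟨hgood P2 E2, goodb P2 _ _ E2 (sub_add_cancel ..) hu, ?_,
                fun b' hb' _ => hfar b' hb'⟩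
            intro b' h4 h5
            rw [hmem b' h4 h5]
            exact ⟨E2.ne_none c3, fun h6 => noL3 _ n1 (h6.back E2 hT1 c3),
              fun _ => ⟨by rw [h2y]; simp, fun h6 => not_link_nn h2y h6.link⟩⟩
          · refine viaFree (Act \ {b}) Set.sdiff_subset (hgood P1 (Ext.refl _)) ?_
              (fun b' hb' _ => hfar b' hb')
            intro b' h4 h5
            rw [hmem b' h4 h5]
            exact ⟨c3, noL3 _ n1, fun _ => ⟨c4, noL3 _ n2⟩⟩
      · exact viaFree Act subset_rfl (hgood P1 (Ext.refl _)) (fun b hb hb' => absurd hb hb')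
          (fun b hb _ hn => c2 ⟨b, hb, hn⟩)
  · -- not a chain move
    have g3 : ∀ P2 : Pos, Ext P1 P2 → ∀ d e, z = Col.ell d e → Link P2 (x - d) →
        ∃ c, P2 (x + e) = some c ∧ c ≠ Col.xx false e := by
      rintro P2 E2 d e rfl h4
      rw [Col.ptr, ← sub_eq_add_neg] at c1
      obtain ⟨d', e', h5, -⟩ := h4.back E2 hT1 c1
      exact absurd ⟨d, e, h1x, Or.inl ⟨d', e', h5⟩⟩ hL
    by_cases c2 : P1 (x - z.ptr) = none
    · refine viaNN (x - z.ptr) false z.ptr Act hp c2 subset_rfl fun P2 E2 h2y _ => ?_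
      have h2x := E2 _ _ h1x
      refine ⟨⟨g1 P2 E2, fun _ => ⟨_, h2y, by simp⟩, g3 P2 E2⟩, ?_,
        fun b hb hb' => absurd hb hb', fun b _ h4 => absurd (h4.back E2 hT1 hx1) hL⟩
      refine good_nn (z := z) ?_ ?_ ?_ ?_ ?_ <;> try rw [sub_add_cancel]
      · exact h2x
      · intro h4
        have h5 := congrArg Col.ptr h4
        exact hp.ne_neg h5
      · intro h4
        obtain ⟨-, c', h5, h6⟩ := h4.back E2 hT1 hx1
        rw [h1ne _ (add_ne_self inP_vw)] at h5
        exact absurd (by rw [h6, add_neg_cancel_right])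
          (hT.not_point hx h5 (ne_bcol_of_ptr h6))
      · intro h4
        obtain ⟨-, h5⟩ := h4.back E2 hT1 hx1
        rw [h1ne _ (by rw [sub_eq_add_neg]; exact add_ne_self inP_vw.neg)] at h5
        exact absurd (by rw [Col.ptr, sub_add_cancel]) (hT.not_point hx h5 (by simp [bcol]))
      · intro h4
        obtain ⟨⟨e, h5⟩, h6⟩ := h4.back E2 hT1 hx1
        exact hL ⟨vt, e, h5, Or.inr ⟨rfl, h6⟩⟩
    · refine viaFree Act subset_rfl ⟨g1 P1 (Ext.refl _), fun _ => ?_, g3 P1 (Ext.refl _)⟩
        (fun b hb hb' => absurd hb hb') (fun b _ h4 => absurd h4 hL)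
      obtain ⟨c', hc'⟩ := Option.ne_none_iff_exists'.1 c2
      refine ⟨c', hc', ?_⟩
      rintro rfl
      rw [h1ne _ (by rw [sub_eq_add_neg]; exact add_ne_self hp.neg)] at hc'
      exact hT.not_point hx hc' (by simp [bcol]) (by simp [Col.ptr])

end Pool.Agent.Lib.MP_0fa330_lc
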