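import Mathlib
import Pool.Agent.Lib.MP_0fa330_lc.Step

set_option autoImplicit false

namespace Pool.Agent.Lib.MP_0fa330_lc

open Function

/-- Winning positions of the first player with raw colours (`true`: first player to move). -/
inductive Win0 : Pos → Bool → Prop
  | final (P : Pos) (ρ : Bool) : Bad P → Win0 P ρ
  | moveA (P : Pos) (x : Cell) (c : Col) :
      c.valid → P x = none → Win0 (update P x (some c)) false → Win0 P true
  | moveB (P : Pos) :
      (∀ x c, c.valid → P x = none → Win0 (update P x (some c)) true) → Win0 P false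

theorem Win0.finish {P : Pos} {m : Cell} {c : Col} (hc : c.valid) (hm : P m = none)
    (h : Bad (update P m (some c))) : Win0 P true :=
  Win0.moveA P m c hc hm (Win0.final _ _ h)

/-- A ladder move forces the answer. -/
theorem Win0.threat {P : Pos} {h h' r : Cell} (hL : Link P h)
    (hv : (Col.ell (h' - h) (r - h')).valid) (h1 : P h' = none) (h2 : P r = none)
    (hw : ∀ c : Col, c.valid →
      Win0 (update (update P h' (some (Col.ell (h' - h) (r - h')))) r (some c)) true) :
    Win0 P true := by
  refine Win0.moveA P h' _ hv h1 (Win0.moveB _ fun y c hc hy => ?_)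
  by_cases hyr : y = r
  · subst hyr
    exact hw c hc
  · have hrh : r ≠ h' := by
      intro h3
      exact hv.ell_e.ne_zero (by rw [h3, sub_self])
    have h3 : update (update P h' (some (Col.ell (h' - h) (r - h')))) y (some c) r = none := by
      rw [update_of_ne (Ne.symm hyr), update_of_ne hrh, h2]
    refine Win0.finish (c := Col.xx false (r - h')) hv.ell_e h3 ?_
    have E2 := (Ext.update hy c).trans (Ext.update h3 (Col.xx false (r - h')))
    refine ⟨h', Or.inr (Or.inl ⟨h' - h, r - h', E2 _ _ (update_self ..), ?_, ?_⟩)⟩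
    · rw [sub_sub_cancel]
      exact hL.mono ((Ext.update h1 _).trans E2)
    · rw [add_sub_cancel]
      exact update_self ..

theorem pigeon (O : Finset Cell) (hO : O.card ≤ 5) (f f' : ℕ → Cell)
    (hinj : ∀ i j, i < 6 → j < 6 → i ≠ j → f i ≠ f j ∧ f i ≠ f' j ∧ f' i ≠ f' j) :
    ∃ j, j < 6 ∧ f j ∉ O ∧ f' j ∉ O := by
  by_contra hcon
  push Not at hcon
  have h1 := Finset.card_le_card_of_injOn (s := Finset.range 6) (t := O)
    (fun j => if f j ∈ O then f j else f' j) (by
      intro j hj
      have hj' : j < 6 := by simpa using hj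
      by_cases h : f j ∈ O
      · simp [h]
      · simpa [h] using hcon j hj' h) (by
      intro i hi j hj hij
      have hi' : i < 6 := by simpa using hi
      have hj' : j < 6 := by simpa using hj
      by_contra hne
      obtain ⟨k1, k2, k3⟩ := hinj i j hi' hj' hne
      obtain ⟨-, k4, -⟩ := hinj j i hj' hi' (Ne.symm hne)
      simp only at hij
      split_ifs at hij
      · exact k1 hij
      · exact k2 hij
      · exact k4 hij.symm
      · exact k3 hij)
  rw [Finset.card_range] at h1
  omega

/-- The taxicab distance. -/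
def rho (g x : Cell) : ℕ := (x.1 - g.1).natAbs + (x.2 - g.2).natAbs

theorem exists_track (g h : Cell) (hh : 24 < rho g h) :
    ∃ c : ℕ → Cell, (∀ i, i ≤ 12 → rho g (c i) + i = rho g h) ∧
      (∀ i, i ≤ 12 → 0 < i → InBox (c i - h)) ∧ (∀ i, InBox (c i - c (i + 1))) := by
  unfold rho at hh
  by_cases h1 : 12 ≤ h.1 - g.1
  · refine ⟨fun i => (h.1 - i, h.2), ?_, ?_, ?_⟩ <;> intros <;>
      simp only [rho, InBox, Prod.fst_sub, Prod.snd_sub] <;> omega
  by_cases h2 : h.1 - g.1 ≤ -12
  · refine ⟨fun i => (h.1 + i, h.2), ?_, ?_, ?_⟩ <;> intros <;>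
      simp only [rho, InBox, Prod.fst_sub, Prod.snd_sub] <;> omega
  by_cases h3 : 12 ≤ h.2 - g.2
  · refine ⟨fun i => (h.1, h.2 - i), ?_, ?_, ?_⟩ <;> intros <;>
      simp only [rho, InBox, Prod.fst_sub, Prod.snd_sub] <;> omega
  · refine ⟨fun i => (h.1, h.2 + i), ?_, ?_, ?_⟩ <;> intros <;>
      simp only [rho, InBox, Prod.fst_sub, Prod.snd_sub] <;> omega

/-- The ladder reaches any free approach cell. -/
theorem ladder (g m : Cell) (Xm : Col) (hX : Xm.valid) (hgm : g ≠ m) (O : Finset Cell)
    (hO : O.card ≤ 5) (hm : m ∈ O) (n : ℕ) :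
    ∀ (P : Pos) (h : Cell), rho g h = n → Link P h → P g = none → P m = none →
      (∀ x, P x ≠ none → x ∈ O ∨ (rho g h ≤ rho g x ∧ 6 < rho g x)) →
      (∀ P', Ext P P' → Link3 P' g → P' m = some Xm → Bad P') → Win0 P true := by
  induction n using Nat.strong_induction_on with
  | _ n ih =>
    intro P h hn hL hg hmP hocc hready
    have hh : P h ≠ none := by
      obtain ⟨d, e, h1, -⟩ := hL
      rw [h1]
      simp
    by_cases hfar : 24 < rho g h
    · obtain ⟨c, c1, c2, c3⟩ := exists_track g h hfar
      obtain ⟨j, hj, j1, j2⟩ := pigeon O hO (fun j => c (2 * j + 2)) (fun j => c (2 * j + 1)) (by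
        intro i j hi hj hij
        have a1 := c1 (2 * i + 2) (by omega)
        have a2 := c1 (2 * i + 1) (by omega)
        have a3 := c1 (2 * j + 2) (by omega)
        have a4 := c1 (2 * j + 1) (by omega)
        refine ⟨fun h1 => ?_, fun h1 => ?_, fun h1 => ?_⟩
        · rw [h1] at a1
          omega
        · rw [h1] at a1
          omega
        · rw [h1] at a2
          omega)
      have a1 := c1 (2 * j + 2) (by omega)
      have a2 := c1 (2 * j + 1) (by omega)
      have e1 : P (c (2 * j + 2)) = none := by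
        by_contra hcon
        rcases hocc _ hcon with h1 | h1
        · exact j1 h1
        · omega
      have e2 : P (c (2 * j + 1)) = none := by
        by_contra hcon
        rcases hocc _ hcon with h1 | h1
        · exact j2 h1
        · omega
      have hv : (Col.ell (c (2 * j + 2) - h) (c (2 * j + 1) - c (2 * j + 2))).valid := by
        refine ⟨Or.inl (c2 _ (by omega) (by omega)), c3 _, ?_⟩
        have := (c2 (2 * j + 1) (by omega) (by omega)).1
        simp only [Prod.fst_sub, Prod.snd_sub] at this ⊢
        omega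
      have hne : c (2 * j + 1) ≠ c (2 * j + 2) := by
        intro h1
        rw [h1] at a2
        omega
      have hrg : rho g g = 0 := by simp [rho]
      refine Win0.threat hL hv e1 e2 fun z _ => ?_
      have e3 : update P (c (2 * j + 2)) (some (Col.ell (c (2 * j + 2) - h)
          (c (2 * j + 1) - c (2 * j + 2)))) (c (2 * j + 1)) = none := by
        rw [update_of_ne hne, e2]
      have E1 := Ext.update e1 (Col.ell (c (2 * j + 2) - h) (c (2 * j + 1) - c (2 * j + 2)))
      have E2 := Ext.update e3 z
      refine ih (rho g (c (2 * j + 2))) (by omega) _ (c (2 * j + 2)) rfl ?_ ?_ ?_ ?_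
        (fun P' E3 => hready P' ((E1.trans E2).trans E3))
      · obtain ⟨d, e, h1, -⟩ := hL
        refine ⟨_, _, E2 _ _ (update_self ..), Or.inl ⟨d, e, ?_⟩⟩
        rw [sub_sub_cancel]
        exact E2 _ _ (E1 _ _ h1)
      · rw [update_of_ne, update_of_ne, hg]
        · intro h1
          rw [← h1] at a1
          omega
        · intro h1
          rw [← h1] at a2
          omega
      · rw [update_of_ne, update_of_ne, hmP]
        · intro h1
          exact j1 (h1 ▸ hm)
        · intro h1
          exact j2 (h1 ▸ hm)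
      · intro x hx
        by_cases x1 : x = c (2 * j + 1)
        · right
          rw [x1]
          omega
        by_cases x2 : x = c (2 * j + 2)
        · right
          rw [x2]
          omega
        rw [update_of_ne x1, update_of_ne x2] at hx
        rcases hocc x hx with h1 | h1
        · exact Or.inl h1
        · right
          omega
    · obtain ⟨j, hj, j1, -⟩ := pigeon O hO (fun j => (g.1 + j + 1, g.2))
        (fun j => (g.1 + j + 1, g.2)) (by
        intro i j hi hj hij
        simp only [ne_eq, Prod.mk.injEq, and_true]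
        omega)
      have e2 : P (g.1 + j + 1, g.2) = none := by
        by_contra hcon
        rcases hocc _ hcon with h1 | h1
        · exact j1 h1
        · simp only [rho] at h1
          omega
      have hgh : g ≠ h := by
        rintro rfl
        exact hh hg
      have hrh : (g.1 + j + 1, g.2) ≠ h := by
        rintro rfl
        exact hh e2
      have hv : (Col.ell (g - h) ((g.1 + j + 1, g.2) - g)).valid := by
        rw [Ne, Prod.ext_iff] at hgh hrh
        simp only [Col.valid, InBox, rho, Prod.fst_sub, Prod.snd_sub] at *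
        omega
      refine Win0.threat hL hv hg e2 fun z _ => ?_
      have hne : (g.1 + j + 1, g.2) ≠ g := by
        rw [Ne, Prod.ext_iff]
        simp only
        omega
      have e3 : update P g (some (Col.ell (g - h) ((g.1 + j + 1, g.2) - g)))
          (g.1 + j + 1, g.2) = none := by
        rw [update_of_ne hne, e2]
      have E1 := Ext.update hg (Col.ell (g - h) ((g.1 + j + 1, g.2) - g))
      have E2 := Ext.update e3 z
      have e4 : update (update P g (some (Col.ell (g - h) ((g.1 + j + 1, g.2) - g))))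
          (g.1 + j + 1, g.2) (some z) m = none := by
        rw [update_of_ne, update_of_ne hgm.symm, hmP]
        intro h1
        exact j1 (h1 ▸ hm)
      have E3 := Ext.update e4 Xm
      refine Win0.finish hX e4 (hready _ ((E1.trans E2).trans E3) ?_ (update_self ..))
      refine ⟨_, _, E3 _ _ (E2 _ _ (update_self ..)), ?_⟩
      rw [sub_sub_cancel]
      exact hL.mono ((E1.trans E2).trans E3)

/-- After the source is built, every move of the second player loses. -/
theorem after_source {P : Pos} {c z : Col} {k e0 : Cell} (hc : c.valid) (hz : z.valid)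
    (p0 : P 0 = some Col.a) (pw : P vw = some c) (pt : P vt = some (Col.ell vt e0))
    (pk : P k = some z) (k0 : k ≠ 0) (kw : k ≠ vw) (kt : k ≠ vt)
    (hocc : ∀ x, x ≠ 0 → x ≠ vw → x ≠ vt → x ≠ k → P x = none) : Win0 P true := by
  have hL : Link P vt := ⟨vt, e0, pt, Or.inr ⟨rfl, by rw [sub_self, p0]⟩⟩
  have hcp := hc.ptr
  have hzp := hz.ptr
  have main : ∀ (g m : Cell) (Xm : Col), Xm.valid → g ≠ m →
      (g ≠ 0 ∧ g ≠ vw ∧ g ≠ vt ∧ g ≠ k) → (m ≠ 0 ∧ m ≠ vw ∧ m ≠ vt ∧ m ≠ k) →
      (∀ P', Ext P P' → Link3 P' g → P' m = some Xm → Bad P') → Win0 P true := by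
    intro g m Xm hX hgm hg hm hready
    refine ladder g m Xm hX hgm {0, vw, vt, k, m} Finset.card_le_five (by simp) _ P vt rfl hL
      (hocc g hg.1 hg.2.1 hg.2.2.1 hg.2.2.2) (hocc m hm.1 hm.2.1 hm.2.2.1 hm.2.2.2) ?_ hready
    intro x hx
    left
    by_contra hcon
    simp only [Finset.mem_insert, Finset.mem_singleton, not_or] at hcon
    exact hx (hocc x hcon.1 hcon.2.1 hcon.2.2.1 hcon.2.2.2.1)
  by_cases hprop : c.ptr = -vw
  · -- the reply points back
    have cA : CapA P 0 := ⟨p0, c, by rwa [zero_add], hprop⟩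
    have cC : CapC P vw := ⟨⟨c, pw, hprop⟩, by rwa [sub_self]⟩
    have cS : CapS P vt := ⟨⟨e0, pt⟩, by rwa [sub_self]⟩
    by_cases hlad : ∃ d e, z = Col.ell d e ∧ k - d = vt
    · obtain ⟨d, e, rfl, hd⟩ := hlad
      have hfree : P (k + e) = none := by
        have h1 := congrArg Prod.fst hd
        have h2 := congrArg Prod.snd hd
        apply hocc <;> rw [Ne, Prod.ext_iff] <;>
          simp only [Col.valid, InBox, vw, vt, Prod.fst_add, Prod.snd_add, Prod.fst_sub,
            Prod.snd_sub, Prod.fst_zero, Prod.snd_zero] at * <;> omega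
      have E := Ext.update hfree (Col.xx false e)
      refine Win0.finish (c := Col.xx false e) hz.ell_e hfree ?_
      exact ⟨k, Or.inr (Or.inl ⟨d, e, E _ _ pk, hd ▸ hL.mono E, update_self ..⟩)⟩
    · -- the demand cell
      have hdem : ∃ (m : Cell) (Xm : Col), Xm.valid ∧ (m = k + z.ptr ∨ m = k - z.ptr) ∧
          (m ≠ 0 ∧ m ≠ vw ∧ m ≠ vt ∧ m ≠ k) ∧
          ∀ P', Ext P P' → P' m = some Xm → Dem P' k z := by
        by_cases hj : k + z.ptr = 0 ∨ k + z.ptr = vw ∨ k + z.ptr = vt
        · refine ⟨k - z.ptr, Col.xx false (-z.ptr), hzp.neg, Or.inr rfl, ?_, fun P' E h1 => ?_⟩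
          · simp only [Ne, Prod.ext_iff, InP, InBox, vw, vt, Prod.fst_add, Prod.snd_add,
              Prod.fst_sub, Prod.snd_sub, Prod.fst_zero, Prod.snd_zero] at hj hzp ⊢
            omega
          · refine Or.inr ⟨Mis.mono E ?_, h1⟩
            rcases hj with hj | hj | hj
            · refine Or.inr (Or.inl ⟨hj ▸ cA, fun h2 => kw ?_, fun e h2 => kt ?_⟩)
              · rw [h2] at hj
                exact eq_of_add_neg_eq_zero hj
              · rw [h2] at hj
                exact eq_of_add_neg_eq_zero hj
            · refine Or.inr (Or.inr (Or.inl ⟨hj ▸ cC, fun h2 => k0 ?_⟩))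
              rw [h2] at hj
              exact add_eq_right.1 hj
            · refine Or.inr (Or.inr (Or.inr ⟨hj ▸ cS, fun d e h2 => hlad ⟨d, e, h2, ?_⟩⟩))
              rw [h2, Col.ptr, ← sub_eq_add_neg] at hj
              exact hj
        · rw [not_or, not_or] at hj
          obtain ⟨β, hβ⟩ := z.comp_eq
          refine ⟨k + z.ptr, z.comp, by rw [hβ]; exact hzp, Or.inl rfl,
            ⟨hj.1, hj.2.1, hj.2.2, add_ne_self hzp⟩, fun P' _ h1 => Or.inl h1⟩
      obtain ⟨m, Xm, hX, hm1, hm2, hm3⟩ := hdem
      have hq := z.qv_cases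
      by_cases hj : k + z.qv = 0 ∨ k + z.qv = vw ∨ k + z.qv = vt
      · refine main (k - z.qv) m Xm hX ?_ ?_ hm2 fun P' E h1 h2 =>
          ⟨k, Or.inr (Or.inr ⟨z, E _ _ pk, hm3 P' E h2, Or.inr ⟨Cap.mono E ?_, h1⟩⟩)⟩
        · simp only [Ne, Prod.ext_iff, Prod.fst_add, Prod.snd_add,
            Prod.fst_sub, Prod.snd_sub] at hq hm1 ⊢
          omega
        · simp only [Ne, Prod.ext_iff, vw, vt, Prod.fst_add, Prod.snd_add,
            Prod.fst_sub, Prod.snd_sub, Prod.fst_zero, Prod.snd_zero] at hq hj ⊢
          omega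
        · rcases hj with hj | hj | hj <;> rw [hj]
          · exact Or.inl cA
          · exact Or.inr (Or.inl cC)
          · exact Or.inr (Or.inr cS)
      · rw [not_or, not_or] at hj
        refine main (k + z.qv) m Xm hX ?_ ⟨hj.1, hj.2.1, hj.2.2, add_ne_self (inP_qv z)⟩ hm2
          fun P' E h1 h2 => ⟨k, Or.inr (Or.inr ⟨z, E _ _ pk, hm3 P' E h2, Or.inl h1⟩)⟩
        simp only [Ne, Prod.ext_iff, Prod.fst_add, Prod.snd_add,
          Prod.fst_sub, Prod.snd_sub] at hq hm1 ⊢
        omega
  · -- the reply points elsewhere: two targets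
    by_cases hk : k = -vw ∨ k = (0, 1)
    · obtain ⟨β, hβ⟩ := c.comp_eq
      have hq := c.qv_cases
      refine main (vw + c.qv) (vw + c.ptr) c.comp (by rw [hβ]; exact hcp) ?_ ?_ ?_
        fun P' E h1 h2 => ⟨vw, Or.inr (Or.inr ⟨c, E _ _ pw, Or.inl h2, Or.inl h1⟩)⟩
      all_goals
        simp only [Ne, Prod.ext_iff, InP, InBox, vw, vt, Prod.fst_add, Prod.snd_add,
          Prod.fst_neg, Prod.snd_neg, Prod.fst_zero, Prod.snd_zero] at hq hk hcp hprop ⊢
        omega
    · rw [not_or] at hk
      have hqa : Col.a.qv = (0, 1) := by simp [Col.qv, Col.ptr, vw]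
      refine main (0, 1) (-vw) (Col.xx false (-vw)) inP_vw.neg (by simp [vw])
        ⟨by simp, by simp [vw], by simp [vt], Ne.symm hk.2⟩
        ⟨by simp [vw], by simp [vw], by simp [vw, vt], Ne.symm hk.1⟩ fun P' E h1 h2 =>
        ⟨0, Or.inr (Or.inr ⟨Col.a, E _ _ p0, Or.inr ⟨Or.inl ⟨rfl, c, ?_, hprop⟩, ?_⟩,
          Or.inl ?_⟩)⟩
      · rw [zero_add]
        exact E _ _ pw
      · rw [zero_sub]
        exact h2
      · rw [hqa, zero_add]
        exact h1

/-- The first player wins from the empty position. -/
theorem win0_empty : Win0 (fun _ => none) true := by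
  have hw0 : vw ≠ 0 := inP_vw.ne_zero
  have ht0 : vt ≠ 0 := inP_vt.ne_zero
  have htw : vt ≠ vw := by simp [vt, vw]
  refine Win0.moveA _ 0 Col.a trivial rfl (Win0.moveB _ fun y c hc hy => ?_)
  have hy0 : y ≠ 0 := by
    rintro rfl
    rw [update_self] at hy
    cases hy
  by_cases hyw : y = vw
  · subst hyw
    have e1 : update (update (fun _ => none : Pos) 0 (some Col.a)) vw (some c) vt = none := by
      rw [update_of_ne htw, update_of_ne ht0]
    refine Win0.moveA _ vt (Col.ell vt (1, 0)) (by simp [Col.valid, InBox, vt]) e1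
      (Win0.moveB _ fun k z hz hk => ?_)
    have kt : k ≠ vt := by
      rintro rfl
      rw [update_self] at hk
      cases hk
    have kw : k ≠ vw := by
      rintro rfl
      rw [update_of_ne htw.symm, update_self] at hk
      cases hk
    have k0 : k ≠ 0 := by
      rintro rfl
      rw [update_of_ne ht0.symm, update_of_ne hw0.symm, update_self] at hk
      cases hk
    refine after_source (c := c) (e0 := (1, 0)) hc hz ?_ ?_ ?_ (update_self ..) k0 kw kt ?_
    · rw [update_of_ne k0.symm, update_of_ne ht0.symm, update_of_ne hw0.symm, update_self]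
    · rw [update_of_ne kw.symm, update_of_ne htw.symm, update_self]
    · rw [update_of_ne kt.symm, update_self]
    · intro x x0 xw xt xk
      rw [update_of_ne xk, update_of_ne xt, update_of_ne xw, update_of_ne x0]
  · have e1 : update (update (fun _ => none : Pos) 0 (some Col.a)) y (some c) vw = none := by
      rw [update_of_ne (Ne.symm hyw), update_of_ne hw0]
    refine Win0.finish (c := Col.xx false vw) inP_vw e1 ⟨0, Or.inl ⟨?_, ?_⟩⟩
    · rw [update_of_ne hw0.symm, update_of_ne hy0.symm, update_self]
    · rw [zero_add, update_self]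

end Pool.Agent.Lib.MP_0fa330_lc
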