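import Mathlib

set_option autoImplicit false

namespace Pool.Agent.Lib.MP_0fa330_lc

/-- A pattern on `ℤ²` over the alphabet `A`: the cells with value `none` are uncoloured, the
support is the set of cells with a value `some a`. -/
abbrev Pattern (A : Type) : Type := ℤ × ℤ → Option A

/-- The two players. -/
inductive Player : Type
  | A : Player
  | B : Player

variable {A : Type}

/-- The empty pattern. -/
def emptyPattern (A : Type) : Pattern A := fun _ => none

/-- The pattern `q` appears in the pattern `p`. -/
def Appears (q p : Pattern A) : Prop :=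
  ∃ i : ℤ × ℤ, ∀ (t : ℤ × ℤ) (a : A), q t = some a → p (i + t) = some a

/-- A position is final when some pattern of `F` appears. -/
def Final (F : Set (Pattern A)) (p : Pattern A) : Prop := ∃ q ∈ F, Appears q p

/-- A move colours one uncoloured cell (no passing). -/
def Move (p p' : Pattern A) : Prop :=
  ∃ (i : ℤ × ℤ) (a : A), p i = none ∧ p' = Function.update p i (some a)

/-- The positions winning for player `A`. -/
inductive Win (F : Set (Pattern A)) : Pattern A → Player → Prop
  | final (p : Pattern A) (ρ : Player) : Final F p → Win F p ρ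
  | moveA (p p' : Pattern A) : Move p p' → Win F p' Player.B → Win F p Player.A
  | moveB (p : Pattern A) : (∀ p', Move p p' → Win F p' Player.A) → Win F p Player.B

/-- `ValueLE F p ρ α`: the position `(p, ρ)` is winning for `A` with value at most `α`. -/
inductive ValueLE (F : Set (Pattern A)) : Pattern A → Player → Ordinal.{0} → Prop
  | final (p : Pattern A) (ρ : Player) (α : Ordinal.{0}) : Final F p → ValueLE F p ρ α
  | moveA (p p' : Pattern A) (α β : Ordinal.{0}) :
      Move p p' → ValueLE F p' Player.B β → β + 1 ≤ α → ValueLE F p Player.A α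
  | moveB (p : Pattern A) (α β : Ordinal.{0}) :
      (∀ p', Move p p' → ValueLE F p' Player.A β) → β + 1 ≤ α → ValueLE F p Player.B α

/-- The value of a position: the least `α` with `ValueLE F p ρ α`. On winning positions it obeys
the recursion of the problem, see `gameValue_final`, `gameValue_A` and `gameValue_B` below. -/
noncomputable def gameValue (F : Set (Pattern A)) (p : Pattern A) (ρ : Player) : Ordinal.{0} :=
  sInf {α | ValueLE F p ρ α}

theorem ValueLE.mono {F : Set (Pattern A)} {p : Pattern A} {ρ : Player} {α α' : Ordinal.{0}}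
    (h : ValueLE F p ρ α) (hα : α ≤ α') : ValueLE F p ρ α' := by
  cases h with
  | final _ _ _ h => exact ValueLE.final _ _ _ h
  | moveA _ p' _ β h1 h2 h3 => exact ValueLE.moveA _ p' _ β h1 h2 (h3.trans hα)
  | moveB _ _ β h1 h2 => exact ValueLE.moveB _ _ β h1 (h2.trans hα)

theorem ValueLE.win {F : Set (Pattern A)} {p : Pattern A} {ρ : Player} {α : Ordinal.{0}}
    (h : ValueLE F p ρ α) : Win F p ρ := by
  induction h with
  | final p ρ _ h => exact Win.final p ρ h
  | moveA p p' _ _ h1 _ _ ih => exact Win.moveA p p' h1 ih
  | moveB p _ _ _ _ ih => exact Win.moveB p ih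

theorem Win.exists_valueLE {F : Set (Pattern A)} {p : Pattern A} {ρ : Player}
    (h : Win F p ρ) : ∃ α, ValueLE F p ρ α := by
  induction h with
  | final p ρ h => exact ⟨0, ValueLE.final p ρ 0 h⟩
  | moveA p p' h1 _ ih =>
    obtain ⟨β, hβ⟩ := ih
    exact ⟨β + 1, ValueLE.moveA p p' _ β h1 hβ le_rfl⟩
  | moveB p _ ih =>
    choose f hf using ih
    refine ⟨(⨆ x : {p' // Move p p'}, f x.1 x.2) + 1, ValueLE.moveB p _ _ (fun p' hp' => ?_) le_rfl⟩
    exact (hf p' hp').mono (Ordinal.le_iSup (fun x : {p' // Move p p'} => f x.1 x.2) ⟨p', hp'⟩)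

theorem Win.valueLE_gameValue {F : Set (Pattern A)} {p : Pattern A} {ρ : Player}
    (h : Win F p ρ) : ValueLE F p ρ (gameValue F p ρ) :=
  csInf_mem h.exists_valueLE

theorem ValueLE.gameValue_le {F : Set (Pattern A)} {p : Pattern A} {ρ : Player} {α : Ordinal.{0}}
    (h : ValueLE F p ρ α) : gameValue F p ρ ≤ α :=
  csInf_le' h

/-- A final position has value `0`. -/
theorem gameValue_final {F : Set (Pattern A)} {p : Pattern A} {ρ : Player} (h : Final F p) :
    gameValue F p ρ = 0 :=
  le_antisymm (ValueLE.final p ρ 0 h).gameValue_le zero_le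

/-- At a winning, not final position with `A` to move the value is the least value after a
winning move, plus one. -/
theorem gameValue_A {F : Set (Pattern A)} {p : Pattern A} (h : Win F p Player.A)
    (hp : ¬ Final F p) :
    gameValue F p Player.A =
      sInf {β | ∃ p', Move p p' ∧ Win F p' Player.B ∧ gameValue F p' Player.B = β} + 1 := by
  have h0 := h.valueLE_gameValue
  generalize hα : gameValue F p Player.A = α at h0
  cases h0 with
  | final _ _ _ h1 => exact absurd h1 hp
  | moveA _ p' _ β h1 h2 h3 =>
    have hne : {β | ∃ p', Move p p' ∧ Win F p' Player.B ∧ gameValue F p' Player.B = β}.Nonempty :=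
      ⟨_, p', h1, h2.win, rfl⟩
    apply le_antisymm
    · obtain ⟨p'', k1, k2, k3⟩ := csInf_mem hne
      rw [← hα, ← k3]
      exact (ValueLE.moveA p p'' _ _ k1 k2.valueLE_gameValue le_rfl).gameValue_le
    · refine le_trans ?_ h3
      gcongr
      exact (csInf_le' (show _ ∈ {β | ∃ p', Move p p' ∧ Win F p' Player.B ∧
        gameValue F p' Player.B = β} from ⟨p', h1, h2.win, rfl⟩)).trans h2.gameValue_le

/-- At a winning, not final position with `B` to move the value is the supremum of the values
after all moves, plus one. -/
theorem gameValue_B {F : Set (Pattern A)} {p : Pattern A} (h : Win F p Player.B)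
    (hp : ¬ Final F p) :
    gameValue F p Player.B = (⨆ x : {p' // Move p p'}, gameValue F x.1 Player.A) + 1 := by
  have h0 := h.valueLE_gameValue
  generalize hα : gameValue F p Player.B = α at h0
  cases h0 with
  | final _ _ _ h1 => exact absurd h1 hp
  | moveB _ _ β h1 h2 =>
    apply le_antisymm
    · rw [← hα]
      refine (ValueLE.moveB p _ _ (fun p' hp' => ?_) le_rfl).gameValue_le
      exact (h1 p' hp').win.valueLE_gameValue.mono
        (Ordinal.le_iSup (fun x : {p' // Move p p'} => gameValue F x.1 Player.A) ⟨p', hp'⟩)
    · refine le_trans ?_ h2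
      gcongr
      exact Ordinal.iSup_le fun x => (h1 x.1 x.2).gameValue_le

end Pool.Agent.Lib.MP_0fa330_lc
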