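import Mathlib
import Pool.Agent.Lib.MP_0fa330_lc.Defs
import Pool.Agent.Lib.MP_0fa330_lc.Attack

set_option autoImplicit false

namespace Pool.Agent.Lib.MP_0fa330_lc

open Function

/-- The alphabet. -/
abbrev Alph : Type := {c : Col // c.valid}

theorem finite_near (r : ℤ) : {u : Cell | Near r 0 u}.Finite := by
  refine ((Set.finite_Icc (-r) r).prod (Set.finite_Icc (-r) r)).subset fun u hu => ?_
  simp only [Near, Set.mem_ofPred_eq, Prod.fst_zero, Prod.snd_zero, sub_zero] at hu
  exact ⟨⟨hu.1, hu.2.1⟩, hu.2.2.1, hu.2.2.2⟩

theorem finite_inP : {u : Cell | InP u}.Finite := by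
  refine (finite_near 101).subset fun u hu => ?_
  have := (near_self 0).add hu
  rwa [zero_add, zero_add] at this

theorem finite_alph : Finite Alph := by
  have h1 : {c : Col | c.valid}.Finite := by
    refine ((((Set.finite_singleton Col.a).union
      ((finite_inP.prod finite_inP).image fun p => Col.ell p.1 p.2)).union
      (((Set.finite_univ (α := Bool)).prod finite_inP).image fun p => Col.nn p.1 p.2)).union
      (((Set.finite_univ (α := Bool)).prod finite_inP).image fun p => Col.xx p.1 p.2)).subset ?_
    intro c hc
    cases c with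
    | a => exact Or.inl (Or.inl (Or.inl rfl))
    | ell d e =>
      exact Or.inl (Or.inl (Or.inr ⟨(d, e), ⟨Col.valid.ell_d hc, Col.valid.ell_e hc⟩, rfl⟩))
    | nn β u => exact Or.inl (Or.inr ⟨(β, u), ⟨trivial, hc⟩, rfl⟩)
    | xx β u => exact Or.inr ⟨(β, u), ⟨trivial, hc⟩, rfl⟩
  exact h1

/-- The raw position under a pattern. -/
def raw (p : Pattern Alph) : Pos := fun x => (p x).map Subtype.val

theorem raw_valid (p : Pattern Alph) : Valid (raw p) := by
  intro x c h
  obtain ⟨a, -, rfl⟩ := Option.map_eq_some_iff.1 h
  exact a.2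

theorem raw_none {p : Pattern Alph} {x : Cell} : raw p x = none ↔ p x = none :=
  Option.map_eq_none_iff

theorem raw_update (p : Pattern Alph) (x : Cell) (a : Alph) :
    raw (update p x (some a)) = update (raw p) x (some a.1) := by
  funext y
  by_cases h : y = x
  · subst h
    simp [raw]
  · simp [raw, update_of_ne h]

/-- The forbidden patterns. -/
def forb : Set (Pattern Alph) := {q | (∀ y, q y ≠ none → Near 303 0 y) ∧ BadAt (raw q) 0}

theorem forb_finite : forb.Finite := by
  have := finite_alph
  have h1 : Finite {u : Cell | Near 303 0 u} := finite_near 303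
  refine Set.Finite.of_finite_image
    (f := fun q : Pattern Alph => fun y : {u : Cell | Near 303 0 u} => q y.1) (Set.toFinite _) ?_
  intro q hq q' hq' h
  funext y
  by_cases hy : Near 303 0 y
  · exact congrFun h ⟨y, hy⟩
  · have h2 : q y = none := by
      by_contra hcon
      exact hy (hq.1 y hcon)
    have h3 : q' y = none := by
      by_contra hcon
      exact hy (hq'.1 y hcon)
    rw [h2, h3]

theorem forb_support {q : Pattern Alph} (hq : q ∈ forb) : {y | q y ≠ none}.Finite :=
  (finite_near 303).subset hq.1

theorem final_iff (p : Pattern Alph) : Final forb p ↔ Bad (raw p) := by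
  classical
  constructor
  · rintro ⟨q, hq, i, hi⟩
    refine ⟨0 + i, BadAt.transfer (raw_valid q) (fun y _ c hc => ?_) hq.2⟩
    obtain ⟨a, ha, rfl⟩ := Option.map_eq_some_iff.1 hc
    unfold raw
    rw [add_comm, hi y a ha]
    rfl
  · rintro ⟨k, hk⟩
    refine ⟨fun y => if Near 303 0 y then p (k + y) else none, ⟨fun y hy => ?_, ?_⟩, k, ?_⟩
    · by_contra hcon
      exact hy (if_neg hcon)
    · have := BadAt.transfer (P := raw fun y => if Near 303 0 y then p (k + y) else none)
        (δ := -k) (raw_valid p) (fun y hy c hc => by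
          have h1 : Near 303 0 (y + -k) := by
            simp only [Near, Prod.fst_add, Prod.snd_add, Prod.fst_neg, Prod.snd_neg,
              Prod.fst_zero, Prod.snd_zero] at hy ⊢
            omega
          simp only [raw]
          rw [if_pos h1, add_comm y, add_neg_cancel_left]
          exact hc) hk
      rwa [add_neg_cancel] at this
    · intro t a h
      by_cases ht : Near 303 0 t
      · simpa only [if_pos ht] using h
      · simp only [if_neg ht] at h
        cases h

theorem win_of_win0 {P : Pos} {ρ : Bool} (h : Win0 P ρ) :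
    ∀ p : Pattern Alph, raw p = P → Win forb p (if ρ then Player.A else Player.B) := by
  induction h with
  | final P ρ hb =>
    rintro p rfl
    exact Win.final _ _ ((final_iff p).2 hb)
  | moveA P x c hc hx _ ih =>
    rintro p rfl
    exact Win.moveA p _ ⟨x, ⟨c, hc⟩, raw_none.1 hx, rfl⟩ (ih _ (raw_update p x ⟨c, hc⟩))
  | moveB P _ ih =>
    rintro p rfl
    refine Win.moveB p ?_
    rintro _ ⟨x, a, hx, rfl⟩
    exact ih x a.1 a.2 (raw_none.2 hx) _ (raw_update p x a)

theorem win_empty : Win forb (emptyPattern Alph) Player.A :=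
  win_of_win0 win0_empty _ rfl

/-- The safety distance for surviving `n` rounds. -/
def safe : ℕ → ℤ
  | 0 => 1
  | n + 1 => 2 * safe n + 101

theorem one_le_safe (n : ℕ) : 1 ≤ safe n := by
  induction n with
  | zero => exact le_rfl
  | succ n ih => simp only [safe]; omega

theorem survive (n : ℕ) : ∀ (p : Pattern Alph) (U Act : Set Cell),
    Inv (raw p) U Act (safe n) → ¬ ValueLE forb p Player.A n := by
  induction n with
  | zero =>
    intro p U Act h hv
    cases hv with
    | final _ _ _ h1 => exact h.not_bad (one_le_safe _) ((final_iff p).1 h1)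
    | moveA _ p' _ β _ _ h3 => simp at h3
  | succ n ih =>
    intro p U Act h hv
    cases hv with
    | final _ _ _ h1 => exact h.not_bad (one_le_safe _) ((final_iff p).1 h1)
    | moveA _ p' _ β h1 h2 h3 =>
      obtain ⟨x, a, hx, rfl⟩ := h1
      obtain ⟨y, r, U', Act', hr, hy, h4⟩ :=
        Inv.step (D := safe n) h (one_le_safe n) (raw_none.2 hx) a.2
      rw [← raw_update] at hy h4
      have h5 := h4
      rw [← raw_update _ y ⟨r, hr⟩] at h5
      have hβ : β ≤ n := by
        rw [Nat.cast_succ, Order.add_one_le_iff, Order.lt_add_one_iff] at h3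
        exact h3
      cases h2 with
      | final _ _ _ h6 =>
        exact h4.not_bad (one_le_safe _) (((final_iff _).1 h6).mono (Ext.update hy r))
      | moveB _ _ γ h6 h7 =>
        exact ih _ U' Act' h5 ((h6 _ ⟨y, ⟨r, hr⟩, raw_none.1 hy, rfl⟩).mono
          ((le_self_add.trans h7).trans hβ))

theorem inv_empty (D : ℤ) : Inv (raw (emptyPattern Alph)) ∅ ∅ D where
  fin := by simp [raw, emptyPattern]
  valid := raw_valid _
  u0 := fun b hb => hb.elim
  good := fun k z hk => by simp [raw, emptyPattern] at hk
  i4 := fun b hb => hb.elim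
  sub := subset_rfl
  far1 := fun b hb => hb.elim
  far2 := fun b hb => hb.elim

end Pool.Agent.Lib.MP_0fa330_lc
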